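import Pool.Agent.Lib.MP_9ed947_gt.SharpGeo

/-! Area of discs and of the part of a disc that lies in a nearly extremal direction. -/

namespace Pool.Agent.Lib.MP_9ed947_gt.Sharp

open UpperHalfPlane MeasureTheory Metric Set
open scoped ENNReal

theorem lint_Ioi {c : ℝ} (hc : 0 < c) :
    ∫⁻ y in Ioi c, (((1 / ‖y‖₊) ^ 2 : NNReal) : ℝ≥0∞) = ENNReal.ofReal (1 / c) := by
  have h1 := integrableOn_Ioi_rpow_of_lt (a := -2) (by norm_num) hc
  have h2 := integral_Ioi_rpow_of_lt (a := -2) (by norm_num) hc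
  have h3 := ofReal_integral_eq_lintegral_ofReal h1
    ((ae_restrict_iff' measurableSet_Ioi).2 (ae_of_all _ fun y hy =>
      Real.rpow_nonneg (hc.trans hy).le _))
  have e : -c ^ ((-2 : ℝ) + 1) / (-2 + 1) = 1 / c := by
    norm_num [Real.rpow_neg_one]
  rw [h2, e] at h3
  rw [h3]
  refine setLIntegral_congr_fun measurableSet_Ioi fun y hy => ?_
  have hy0 : 0 < y := hc.trans hy
  rw [← ENNReal.ofReal_coe_nnreal]
  congr 1
  rw [Real.rpow_neg hy0.le]
  simp [abs_of_pos hy0]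

theorem vol_above {a : ℝ → ℝ} (ha : Measurable a) (hp : ∀ x, 0 < a x) :
    volume {z : ℍ | a z.re < z.im} ≤ ∫⁻ x, ENNReal.ofReal (1 / a x) := by
  rw [volume_eq_lintegral]
  have hT : MeasurableSet {w : ℂ | a w.re < w.im} :=
    measurableSet_lt (ha.comp Complex.measurable_re) Complex.measurable_im
  have hs : UpperHalfPlane.coe '' {z : ℍ | a z.re < z.im} ⊆ {w : ℂ | a w.re < w.im} := by
    rintro _ ⟨z, hz, rfl⟩
    exact hz
  refine (lintegral_mono_set hs).trans ?_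
  rw [← lintegral_indicator hT]
  let F : ℝ × ℝ → ℝ≥0∞ := fun p =>
    (Ioi (a p.1)).indicator (fun y : ℝ => (((1 / ‖y‖₊) ^ 2 : NNReal) : ℝ≥0∞)) p.2
  have e : ∀ w : ℂ, {w : ℂ | a w.re < w.im}.indicator
      (fun z : ℂ => (((1 / ‖z.im‖₊) ^ 2 : NNReal) : ℝ≥0∞)) w =
      F (Complex.measurableEquivRealProd w) := by
    intro w
    by_cases h : a w.re < w.im
    · rw [indicator_of_mem (show w ∈ {w : ℂ | a w.re < w.im} from h)]
      exact (indicator_of_mem (show w.im ∈ Ioi (a w.re) from h)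
        (fun y : ℝ => (((1 / ‖y‖₊) ^ 2 : NNReal) : ℝ≥0∞))).symm
    · rw [indicator_of_notMem (show w ∉ {w : ℂ | a w.re < w.im} from h)]
      exact (indicator_of_notMem (show w.im ∉ Ioi (a w.re) from h)
        (fun y : ℝ => (((1 / ‖y‖₊) ^ 2 : NNReal) : ℝ≥0∞))).symm
  simp only [e]
  rw [Complex.volume_preserving_equiv_real_prod.lintegral_comp_emb
    Complex.measurableEquivRealProd.measurableEmbedding F, Measure.volume_eq_prod]
  refine (lintegral_prod_le F).trans (le_of_eq (lintegral_congr fun x => ?_))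
  simp only [F]
  rw [lintegral_indicator measurableSet_Ioi, lint_Ioi (hp x)]

theorem vol_cap {R K : ℝ} (hR : 0 < R) (hK : 0 < K) :
    volume {z : ℍ | (z.re ^ 2 + R ^ 2) / (4 * K) < z.im} ≤
      ENNReal.ofReal (4 * Real.pi * K / R) := by
  refine (vol_above (a := fun x => (x ^ 2 + R ^ 2) / (4 * K)) (by fun_prop)
    (fun x => by positivity)).trans (le_of_eq ?_)
  have e : ∀ x : ℝ, 1 / ((x ^ 2 + R ^ 2) / (4 * K)) = 4 * K / R ^ 2 * (1 + (x / R) ^ 2)⁻¹ := by
    intro x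
    field_simp
    ring
  simp only [e]
  have hi : Integrable fun x : ℝ => 4 * K / R ^ 2 * (1 + (x / R) ^ 2)⁻¹ :=
    (integrable_inv_one_add_sq.comp_div hR.ne').const_mul _
  rw [← ofReal_integral_eq_lintegral_ofReal hi (ae_of_all _ fun x => by positivity),
    integral_const_mul, Measure.integral_comp_div (fun x : ℝ => (1 + x ^ 2)⁻¹) R,
    integral_univ_inv_one_add_sq, abs_of_pos hR, smul_eq_mul]
  congr 1
  field_simp

theorem cosh_axis {Q : ℍ} (hQ : Q.re = 0) (z : ℍ) :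
    Real.cosh (dist Q z) = (z.re ^ 2 + z.im ^ 2 + Q.im ^ 2) / (2 * Q.im * z.im) := by
  rw [cosh_dist', hQ]
  congr 1
  ring

theorem cosh_I (z : ℍ) : Real.cosh (dist I z) = (z.re ^ 2 + z.im ^ 2 + 1) / (2 * z.im) := by
  rw [cosh_axis I_re, I_im]
  norm_num

/-- Two points in normal position. -/
theorem exists_normal (P Q : ℍ) (h : dist P Q ≤ Real.log 2) :
    ∃ T : ℍ ≃ᵢ ℍ, T P = I ∧ (T Q).re = 0 ∧ 1 / 2 ≤ (T Q).im ∧ (T Q).im ≤ 1 := by
  set ζ := zeta ((mv P).symm Q) with hζ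
  let T : ℍ ≃ᵢ ℍ := (mv P).symm.trans (rot ((Real.pi - ζ.arg) / 2))
  have hP : T P = I := by
    simp only [T, IsometryEquiv.trans_apply]
    rw [mv_symm, rot_I]
  have hz : zeta (T Q) = -(‖ζ‖ : ℂ) := by
    simp only [T, IsometryEquiv.trans_apply]
    rw [zeta_rot, ← hζ]
    have e : ((2 * ((Real.pi - ζ.arg) / 2) : ℝ) : ℂ) * Complex.I =
        Real.pi * Complex.I - ζ.arg * Complex.I := by
      push_cast
      ring
    rw [e, Complex.exp_sub, Complex.exp_pi_mul_I]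
    have h2 := Complex.norm_mul_exp_arg_mul_I ζ
    have h3 := Complex.exp_ne_zero (ζ.arg * Complex.I)
    field_simp
    linear_combination h2
  have hy := (T Q).im_pos
  have h1 : (T Q).re = 0 := by
    have := congrArg Complex.im hz
    rw [zeta_im] at this
    simpa [hy.ne'] using this
  refine ⟨T, hP, h1, ?_, ?_⟩
  · have h2 := im_le_im_mul_exp_dist I (T Q)
    have h3 : dist I (T Q) ≤ Real.log 2 := by rw [← hP, T.dist_eq]; exact h
    have h4 := Real.exp_le_exp.2 h3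
    rw [Real.exp_log two_pos] at h4
    rw [I_im] at h2
    nlinarith
  · have := congrArg Complex.re hz
    rw [zeta_re, h1] at this
    have h5 : (0 ^ 2 + (T Q).im ^ 2 - 1) / (T Q).im ≤ 0 := by
      rw [this]
      simp
    rw [div_nonpos_iff] at h5
    rcases h5 with h5 | h5
    · linarith [h5.2]
    · nlinarith [h5.1]

theorem cosh_le {P Q : ℍ} (h : dist P Q ≤ Real.log 2) (z : ℍ) :
    Real.cosh (dist Q z) ≤ 2 * Real.cosh (dist P z) := by
  obtain ⟨T, hP, h0, h1, h2⟩ := exists_normal P Q h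
  rw [← T.dist_eq Q z, ← T.dist_eq P z, hP, cosh_axis h0, cosh_I]
  have hy := (T z).im_pos
  have hq := (T Q).im_pos
  rw [← mul_div_assoc, div_le_div_iff₀ (by positivity) (by positivity)]
  have hn : 0 ≤ (T z).re ^ 2 + (T z).im ^ 2 := by positivity
  have : (T z).re ^ 2 + (T z).im ^ 2 + (T Q).im ^ 2 ≤
      2 * (T Q).im * ((T z).re ^ 2 + (T z).im ^ 2 + 1) := by nlinarith
  nlinarith

theorem vol_disc (P : ℍ) {K : ℝ} (hK : 0 < K) :
    volume {z : ℍ | Real.cosh (dist P z) ≤ K} ≤ ENNReal.ofReal (4 * Real.pi * K) := by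
  have h := vol_cap one_pos hK
  rw [div_one, ← volume_preimage (mv P).symm] at h
  refine (measure_mono fun z hz => ?_).trans h
  simp only [mem_ofPred_eq, mem_preimage] at hz ⊢
  rw [← (mv P).symm.dist_eq, mv_symm, cosh_I] at hz
  have hy := ((mv P).symm z).im_pos
  rw [div_le_iff₀ (by positivity)] at hz
  rw [div_lt_iff₀ (by positivity)]
  nlinarith [mul_pos hK hy]

theorem vol_bad {P Q : ℍ} (h : dist P Q ≤ Real.log 2) {R K : ℝ} (hR : 0 < R) (hK : 0 < K) :
    volume {z : ℍ | Real.cosh (dist P z) ≤ K ∧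
      (2 - 1 / (R ^ 2 + 1)) * Real.cosh (dist P z) < Real.cosh (dist Q z)} ≤
      ENNReal.ofReal (4 * Real.pi * K / R) := by
  obtain ⟨T, hP, h0, h1, h2⟩ := exists_normal P Q h
  have hc := vol_cap hR hK
  rw [← volume_preimage T] at hc
  refine (measure_mono fun z hz => ?_).trans hc
  simp only [mem_ofPred_eq, mem_preimage] at hz ⊢
  rw [← T.dist_eq Q z, ← T.dist_eq P z, hP, cosh_axis h0, cosh_I] at hz
  obtain ⟨a1, a2⟩ := hz
  have hy := (T z).im_pos
  have hq := (T Q).im_pos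
  set x := (T z).re
  set y := (T z).im
  set q := (T Q).im
  have hn : 0 ≤ x ^ 2 + y ^ 2 := by positivity
  have a3 : (x ^ 2 + y ^ 2 + q ^ 2) / (2 * q * y) ≤ (2 * (x ^ 2 + y ^ 2) + 1) / (2 * y) := by
    rw [div_le_div_iff₀ (by positivity) (by positivity)]
    have : x ^ 2 + y ^ 2 + q ^ 2 ≤ q * (2 * (x ^ 2 + y ^ 2) + 1) := by nlinarith
    nlinarith
  have a4 := a2.trans_le a3
  rw [← mul_div_assoc, div_lt_div_iff_of_pos_right (by positivity)] at a4
  have a5 : R ^ 2 < x ^ 2 + y ^ 2 := by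
    have a6 : 1 < 1 / (R ^ 2 + 1) * (x ^ 2 + y ^ 2 + 1) := by linarith
    rw [one_div_mul_eq_div, lt_div_iff₀ (by positivity)] at a6
    linarith
  rw [div_le_iff₀ (by positivity)] at a1
  rw [div_lt_iff₀ (by positivity)]
  nlinarith [sq_nonneg y]

end Pool.Agent.Lib.MP_9ed947_gt.Sharp
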