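import Mathlib

/-! Paradoxical decompositions in the hyperbolic plane. -/

namespace Pool.Agent.Lib.MP_9ed947_gt.Sharp

/-- The indexed family `A` is a partition of `X`: nonempty, pairwise disjoint pieces with
union `X`. -/
def IsPartition {ι : Type} (X : Set UpperHalfPlane) (A : ι → Set UpperHalfPlane) : Prop :=
  (∀ i, (A i).Nonempty) ∧ (∀ i j, i ≠ j → Disjoint (A i) (A j)) ∧ ⋃ i, A i = X

/-- `X` has a paradoxical decomposition whose pieces all satisfy `M` and whose isometries all lie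
in `U`. -/
def Paradox (M : Set UpperHalfPlane → Prop) (U : Set (UpperHalfPlane ≃ᵢ UpperHalfPlane))
    (X : Set UpperHalfPlane) : Prop :=
  ∃ (m n : ℕ) (ρ : Fin m → UpperHalfPlane ≃ᵢ UpperHalfPlane)
    (σ : Fin n → UpperHalfPlane ≃ᵢ UpperHalfPlane) (A : Fin m → Set UpperHalfPlane)
    (B : Fin n → Set UpperHalfPlane),
    1 ≤ m ∧ 1 ≤ n ∧ (∀ i, M (A i)) ∧ (∀ j, M (B j)) ∧ (∀ i, ρ i ∈ U) ∧ (∀ j, σ j ∈ U) ∧
    IsPartition X A ∧ IsPartition X B ∧
    IsPartition X (Sum.elim (fun i => ρ i '' A i) (fun j => σ j '' B j))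

end Pool.Agent.Lib.MP_9ed947_gt.Sharp
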