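import Pool.Agent.Lib.MP_9ed947_gt.SharpDefs
import Pool.Agent.Lib.MP_9ed947_gt.SharpArea

/-! The endpoint: if every isometry used moves `P` by at most `log 2`, the set is null. -/

namespace Pool.Agent.Lib.MP_9ed947_gt.Sharp

open UpperHalfPlane MeasureTheory Metric Set
open scoped ENNReal

/-- The potential argument over scales. -/
theorem no_growth (μ ν : ℝ → ℝ) {β C ε K₀ : ℝ} (hβ : 1 < β) (hK₀ : 0 < K₀) (hν : Monotone ν)
    (h0 : ∀ K, 0 ≤ μ K) (h1 : ∀ K, 0 < K → 2 * (μ K + ν (β * K) - ν K) ≤ μ (2 * K))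
    (hC : ∀ K, 0 < K → μ K ≤ C * K) (h2 : ∀ K, ν K ≤ μ K)
    (h3 : ∀ K, 0 < K → μ K ≤ ν K + ε * K) (h4 : 2 * ε * K₀ < μ K₀) : False := by
  obtain ⟨J, hJ⟩ := pow_unbounded_of_one_lt 2 hβ
  have hβ0 : 0 < β := by linarith
  have dbl : ∀ K, 0 < K → 2 * μ K ≤ μ (2 * K) := by
    intro K hK
    have a := h1 K hK
    have b : ν K ≤ ν (β * K) := hν (by nlinarith)
    linarith
  have pw : ∀ n : ℕ, 2 ^ n * μ K₀ ≤ μ (2 ^ n * K₀) := by
    intro n
    induction n with
    | zero => simp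
    | succ n ih =>
      have a := dbl (2 ^ n * K₀) (by positivity)
      have e : (2 : ℝ) ^ (n + 1) * K₀ = 2 * (2 ^ n * K₀) := by ring
      rw [e, pow_succ]
      linarith
  let Ψ : ℝ → ℝ := fun K => ∑ j ∈ Finset.range J, μ (β ^ j * K)
  have step : ∀ K, 0 < K → 2 * Ψ K + 2 * (μ K - 2 * ε * K) ≤ Ψ (2 * K) := by
    intro K hK
    have t := Finset.sum_range_sub (fun j => ν (β ^ j * K)) J
    have a : ∑ j ∈ Finset.range J,
        2 * (μ (β ^ j * K) + (ν (β ^ (j + 1) * K) - ν (β ^ j * K))) ≤ Ψ (2 * K) := by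
      refine Finset.sum_le_sum fun j _ => ?_
      have b := h1 (β ^ j * K) (by positivity)
      have e1 : β * (β ^ j * K) = β ^ (j + 1) * K := by ring
      have e2 : 2 * (β ^ j * K) = β ^ j * (2 * K) := by ring
      rw [e1, e2] at b
      linarith
    rw [← Finset.mul_sum, Finset.sum_add_distrib, t, pow_zero, one_mul] at a
    have c1 : ν (2 * K) ≤ ν (β ^ J * K) := hν (by nlinarith)
    have c2 := h3 (2 * K) (by positivity)
    have c3 := h2 K
    have c4 := dbl K hK
    simp only [Ψ] at a ⊢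
    linarith
  have low : ∀ n : ℕ, 2 ^ n * (n * (μ K₀ - 2 * ε * K₀)) ≤ Ψ (2 ^ n * K₀) := by
    intro n
    induction n with
    | zero =>
      simp only [Nat.cast_zero, zero_mul, mul_zero]
      exact Finset.sum_nonneg fun j _ => h0 _
    | succ n ih =>
      have a := step (2 ^ n * K₀) (by positivity)
      have b := pw n
      have e : (2 : ℝ) ^ (n + 1) * K₀ = 2 * (2 ^ n * K₀) := by ring
      rw [e, pow_succ]
      push_cast
      nlinarith
  have up : ∀ K, 0 < K → Ψ K ≤ (∑ j ∈ Finset.range J, C * β ^ j) * K := by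
    intro K hK
    rw [Finset.sum_mul]
    refine Finset.sum_le_sum fun j _ => ?_
    have := hC (β ^ j * K) (by positivity)
    linarith
  obtain ⟨n, hn⟩ := exists_nat_gt ((∑ j ∈ Finset.range J, C * β ^ j) * K₀ / (μ K₀ - 2 * ε * K₀))
  rw [div_lt_iff₀ (by linarith)] at hn
  have a := (low n).trans (up _ (by positivity))
  have b : (0 : ℝ) < 2 ^ n := by positivity
  nlinarith

/-- Two copies of the part of `X` in `Y` fit in the part of `X` in `Z`. -/
theorem double {ι κ : Type} [Fintype ι] [Fintype κ] {X Y Z : Set ℍ} {A : ι → Set ℍ}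
    {B : κ → Set ℍ} {ρ : ι → ℍ ≃ᵢ ℍ} {σ : κ → ℍ ≃ᵢ ℍ}
    (hA : ∀ i, NullMeasurableSet (A i) volume) (hB : ∀ j, NullMeasurableSet (B j) volume)
    (uA : ⋃ i, A i = X) (uB : ⋃ j, B j = X)
    (hp : IsPartition X (Sum.elim (fun i => ρ i '' A i) (fun j => σ j '' B j)))
    (hY : MeasurableSet Y) (hρ : ∀ i, ∀ z ∈ Y, ρ i z ∈ Z) (hσ : ∀ j, ∀ z ∈ Y, σ j z ∈ Z) :
    2 * volume (X ∩ Y) ≤ volume (X ∩ Z) := by
  let F : ι ⊕ κ → Set ℍ := Sum.elim (fun i => ρ i '' (A i ∩ Y)) (fun j => σ j '' (B j ∩ Y))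
  have hsub : ∀ s, F s ⊆ Sum.elim (fun i => ρ i '' A i) (fun j => σ j '' B j) s := by
    rintro (i | j)
    · exact image_mono inter_subset_left
    · exact image_mono inter_subset_left
  have hd : Pairwise (Function.onFun (AEDisjoint volume) F) := fun s t hst =>
    ((hp.2.1 s t hst).mono (hsub s) (hsub t)).aedisjoint
  have hn : ∀ s, NullMeasurableSet (F s) volume := by
    rintro (i | j)
    · exact null_image _ ((hA i).inter hY.nullMeasurableSet)
    · exact null_image _ ((hB j).inter hY.nullMeasurableSet)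
  have hZ : ⋃ s, F s ⊆ X ∩ Z := by
    refine iUnion_subset fun s => subset_inter ?_ ?_
    · rw [← hp.2.2]
      exact (hsub s).trans (subset_iUnion _ s)
    · rcases s with i | j
      · rintro _ ⟨z, hz, rfl⟩
        exact hρ i z hz.2
      · rintro _ ⟨z, hz, rfl⟩
        exact hσ j z hz.2
  have e := measure_iUnion₀ hd hn
  rw [tsum_fintype, Fintype.sum_sum_type] at e
  simp only [F, Sum.elim_inl, Sum.elim_inr, volume_image] at e
  have a1 : volume (X ∩ Y) ≤ ∑ i, volume (A i ∩ Y) := by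
    rw [← uA, iUnion_inter]
    exact measure_iUnion_fintype_le _ _
  have a2 : volume (X ∩ Y) ≤ ∑ j, volume (B j ∩ Y) := by
    rw [← uB, iUnion_inter]
    exact measure_iUnion_fintype_le _ _
  rw [two_mul]
  exact (add_le_add a1 a2).trans (e.symm.le.trans (measure_mono hZ))

theorem endpoint {X : Set ℍ} {P : ℍ}
    (hp : Paradox (fun S => NullMeasurableSet S volume) {g | dist P (g P) ≤ Real.log 2} X) :
    volume X = 0 := by
  obtain ⟨m, n, ρ, σ, A, B, -, -, hA, hB, hρ, hσ, pA, pB, pS⟩ := hp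
  by_contra hX
  let E : ℝ → Set ℍ := fun K => {z | Real.cosh (dist P z) ≤ K}
  have hW : Continuous fun z : ℍ => Real.cosh (dist P z) := by fun_prop
  have mE : ∀ K, MeasurableSet (E K) := fun K =>
    (isClosed_le hW continuous_const).measurableSet
  have monE : ∀ {K K'}, K ≤ K' → E K ⊆ E K' := fun h z hz => le_trans hz h
  have fE : ∀ K, volume (E K) ≠ ∞ := fun K =>
    ne_top_of_le_ne_top ENNReal.ofReal_ne_top
      ((measure_mono (monE (le_max_left K 1))).trans
        (vol_disc P (lt_of_lt_of_le one_pos (le_max_right K 1))))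
  have fX : ∀ K, volume (X ∩ E K) ≠ ∞ := fun K =>
    ne_top_of_le_ne_top (fE K) (measure_mono inter_subset_right)
  obtain ⟨K₀, hK₀, hpos⟩ : ∃ K₀ : ℝ, 0 < K₀ ∧ volume (X ∩ E K₀) ≠ 0 := by
    by_contra hn
    push Not at hn
    apply hX
    have : X = ⋃ k : ℕ, X ∩ E (k + 1) := by
      ext z
      simp only [mem_iUnion, mem_inter_iff]
      constructor
      · intro hz
        obtain ⟨k, hk⟩ := exists_nat_gt (Real.cosh (dist P z))
        exact ⟨k, hz, by simp only [E, mem_ofPred_eq]; linarith⟩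
      · rintro ⟨k, hz, -⟩
        exact hz
    rw [this]
    exact measure_iUnion_null fun k => hn _ (by positivity)
  let μ : ℝ → ℝ := fun K => (volume (X ∩ E K)).toReal
  have hμ₀ : 0 < μ K₀ := ENNReal.toReal_pos hpos (fX K₀)
  let G : Fin m ⊕ Fin n → ℍ ≃ᵢ ℍ := Sum.elim ρ σ
  have hG : ∀ s, dist P ((G s).symm P) ≤ Real.log 2 := by
    intro s
    rw [← (G s).dist_eq, IsometryEquiv.apply_symm_apply, dist_comm]
    rcases s with i | j
    · exact hρ i
    · exact hσ j
  have hGz : ∀ s z, dist P (G s z) = dist ((G s).symm P) z := by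
    intro s z
    rw [← (G s).dist_eq ((G s).symm P), IsometryEquiv.apply_symm_apply]
  obtain ⟨c, hc⟩ : ∃ c : ℝ, c = Fintype.card (Fin m ⊕ Fin n) := ⟨_, rfl⟩
  have hc0 : 0 ≤ c := by rw [hc]; positivity
  obtain ⟨R, hR, hR'⟩ : ∃ R : ℝ, 0 < R ∧ 2 * (c * (4 * Real.pi / R)) * K₀ < μ K₀ := by
    have hpi := Real.pi_pos
    refine ⟨8 * Real.pi * c * K₀ / μ K₀ + 1, by positivity, ?_⟩
    have e : 2 * (c * (4 * Real.pi / (8 * Real.pi * c * K₀ / μ K₀ + 1))) * K₀ =
        8 * Real.pi * c * K₀ / (8 * Real.pi * c * K₀ / μ K₀ + 1) := by ring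
    rw [e, div_lt_iff₀ (by positivity), mul_add, mul_div_cancel₀ _ hμ₀.ne']
    linarith
  obtain ⟨γ, hγ⟩ : ∃ γ : ℝ, γ = 2 - 1 / (R ^ 2 + 1) := ⟨_, rfl⟩
  have hγ2 : γ < 2 := by
    have : 0 < 1 / (R ^ 2 + 1) := by positivity
    linarith
  have hγ0 : 0 < γ := by
    have : 1 / (R ^ 2 + 1) ≤ 1 := by
      rw [div_le_one (by positivity)]
      nlinarith [sq_nonneg R]
    linarith
  let Bad : Set ℍ := ⋃ s, {z | γ * Real.cosh (dist P z) < Real.cosh (dist ((G s).symm P) z)}
  have mBad : MeasurableSet Bad :=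
    (isOpen_iUnion fun s => isOpen_lt (by fun_prop) (by fun_prop)).measurableSet
  let ν : ℝ → ℝ := fun K => (volume ((X ∩ E K) \ Bad)).toReal
  let b : ℝ → ℝ := fun K => (volume (X ∩ E K ∩ Bad)).toReal
  have fν : ∀ K, volume ((X ∩ E K) \ Bad) ≠ ∞ := fun K =>
    ne_top_of_le_ne_top (fX K) (measure_mono sdiff_subset)
  have fb : ∀ K, volume (X ∩ E K ∩ Bad) ≠ ∞ := fun K =>
    ne_top_of_le_ne_top (fX K) (measure_mono inter_subset_left)
  have split : ∀ K, μ K = b K + ν K := by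
    intro K
    simp only [μ, b, ν]
    rw [← measure_inter_add_sdiff (X ∩ E K) mBad, ENNReal.toReal_add (fb K) (fν K)]
  refine no_growth μ ν (β := 2 / γ) (C := 4 * Real.pi) (ε := c * (4 * Real.pi / R))
    ((one_lt_div hγ0).2 hγ2) hK₀ ?_ (fun K => ENNReal.toReal_nonneg) ?_ ?_ ?_ ?_ hR'
  · intro K K' h
    exact ENNReal.toReal_mono (fν K')
      (measure_mono (sdiff_subset_sdiff_left (inter_subset_inter_right _ (monE h))))
  · intro K hK
    have hY : ∀ s, ∀ z ∈ (E K ∩ Bad) ∪ (E (2 / γ * K) \ Bad), G s z ∈ E (2 * K) := by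
      rintro s z (hz | hz)
      · have a := cosh_le (hG s) z
        have a' : Real.cosh (dist P z) ≤ K := hz.1
        simp only [E, mem_ofPred_eq]
        rw [hGz]
        linarith
      · have a : ¬ γ * Real.cosh (dist P z) < Real.cosh (dist ((G s).symm P) z) :=
          fun h => hz.2 (mem_iUnion.2 ⟨s, h⟩)
        have a' : Real.cosh (dist P z) ≤ 2 / γ * K := hz.1
        have a'' : γ * (2 / γ * K) = 2 * K := by field_simp
        simp only [E, mem_ofPred_eq]
        rw [hGz]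
        nlinarith
    have d := double hA hB pA.2.2 pB.2.2 pS (((mE K).inter mBad).union ((mE _).diff mBad))
      (fun i => hY (Sum.inl i)) (fun j => hY (Sum.inr j))
    have e1 : X ∩ ((E K ∩ Bad) ∪ (E (2 / γ * K) \ Bad)) ∩ Bad = X ∩ E K ∩ Bad := by
      ext z
      simp only [mem_inter_iff, mem_union, mem_sdiff]
      tauto
    have e2 : (X ∩ ((E K ∩ Bad) ∪ (E (2 / γ * K) \ Bad))) \ Bad = (X ∩ E (2 / γ * K)) \ Bad := by
      ext z
      simp only [mem_inter_iff, mem_union, mem_sdiff]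
      tauto
    rw [← measure_inter_add_sdiff _ mBad, e1, e2] at d
    have d' := ENNReal.toReal_mono (fX _) d
    rw [ENNReal.toReal_mul, ENNReal.toReal_add (fb _) (fν _), ENNReal.toReal_ofNat] at d'
    have s1 := split K
    simp only [μ, b, ν] at s1 ⊢
    linarith
  · intro K hK
    have hpi := Real.pi_pos
    exact ENNReal.toReal_le_of_le_ofReal (by positivity)
      ((measure_mono inter_subset_right).trans (vol_disc P hK))
  · intro K
    have : 0 ≤ b K := ENNReal.toReal_nonneg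
    rw [split]
    linarith
  · intro K hK
    have hpi := Real.pi_pos
    have hs : X ∩ E K ∩ Bad ⊆ ⋃ s, {z | Real.cosh (dist P z) ≤ K ∧
        (2 - 1 / (R ^ 2 + 1)) * Real.cosh (dist P z) < Real.cosh (dist ((G s).symm P) z)} := by
      rintro z ⟨⟨-, h1⟩, h2⟩
      obtain ⟨s, hs⟩ := mem_iUnion.1 h2
      exact mem_iUnion.2 ⟨s, h1, by rw [← hγ]; exact hs⟩
    have a := (measure_mono (μ := volume) hs).trans ((measure_iUnion_fintype_le _ _).trans
      (Finset.sum_le_sum fun s _ => vol_bad (hG s) hR hK))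
    rw [← ENNReal.ofReal_sum_of_nonneg (fun _ _ => by positivity), Finset.sum_const,
      Finset.card_univ, nsmul_eq_mul, ← hc] at a
    have a' : b K ≤ c * (4 * Real.pi * K / R) :=
      ENNReal.toReal_le_of_le_ofReal (by positivity) a
    have e : c * (4 * Real.pi * K / R) = c * (4 * Real.pi / R) * K := by ring
    rw [split]
    linarith

end Pool.Agent.Lib.MP_9ed947_gt.Sharp
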