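import Mathlib

/-! Rotations, dilations, the direction seen from `I`, and invariance of the area under all
isometries of the hyperbolic plane. -/

namespace Pool.Agent.Lib.MP_9ed947_gt.Sharp

open UpperHalfPlane MeasureTheory Metric Set
open scoped MatrixGroups ENNReal

/-- The isometry given by a matrix. -/
noncomputable def act (g : SL(2, ℝ)) : ℍ ≃ᵢ ℍ := IsometryEquiv.constSMul g

theorem act_apply (g : SL(2, ℝ)) (z : ℍ) : act g z = g • z := rfl

/-- An isometry that takes `I` to `P`. -/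
noncomputable def mv (P : ℍ) : ℍ ≃ᵢ ℍ := act P.toSL2R

theorem mv_I (P : ℍ) : mv P I = P := toSL2R_smul_I P

theorem mv_symm (P : ℍ) : (mv P).symm P = I := by
  rw [IsometryEquiv.symm_apply_eq, mv_I]

noncomputable def rotM (φ : ℝ) : SL(2, ℝ) :=
  ⟨!![Real.cos φ, Real.sin φ; -Real.sin φ, Real.cos φ], by
    rw [Matrix.det_fin_two_of]
    nlinarith [Real.cos_sq_add_sin_sq φ]⟩

/-- Rotation about `I` by the angle `2 φ`. -/
noncomputable def rot (φ : ℝ) : ℍ ≃ᵢ ℍ := act (rotM φ)

theorem coe_rot (φ : ℝ) (z : ℍ) :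
    ((rot φ z : ℍ) : ℂ) = ((Real.cos φ : ℝ) * (z : ℂ) + (Real.sin φ : ℝ)) /
      ((-Real.sin φ : ℝ) * (z : ℂ) + (Real.cos φ : ℝ)) := by
  rw [rot, act_apply, coe_specialLinearGroup_apply]
  rfl

theorem rot_den_pos (φ : ℝ) (z : ℍ) :
    0 < (Real.cos φ - Real.sin φ * z.re) ^ 2 + (Real.sin φ * z.im) ^ 2 := by
  have hy := z.im_pos
  by_cases h : Real.sin φ = 0
  · have := Real.cos_sq_add_sin_sq φ
    rw [h] at this ⊢
    nlinarith
  · have : 0 < (Real.sin φ * z.im) ^ 2 := by positivity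
    positivity

theorem rot_re (φ : ℝ) (z : ℍ) : (rot φ z).re =
    ((Real.cos φ * z.re + Real.sin φ) * (Real.cos φ - Real.sin φ * z.re) -
      Real.cos φ * Real.sin φ * z.im ^ 2) /
      ((Real.cos φ - Real.sin φ * z.re) ^ 2 + (Real.sin φ * z.im) ^ 2) := by
  have h := rot_den_pos φ z
  rw [← coe_re, coe_rot, Complex.div_re, Complex.normSq_apply]
  simp only [Complex.add_re, Complex.mul_re, Complex.ofReal_re, Complex.ofReal_im, coe_re, coe_im,
    Complex.add_im, Complex.mul_im, zero_mul, sub_zero, add_zero]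
  have e : (-Real.sin φ * z.re + Real.cos φ) * (-Real.sin φ * z.re + Real.cos φ) +
      -Real.sin φ * z.im * (-Real.sin φ * z.im) =
      (Real.cos φ - Real.sin φ * z.re) ^ 2 + (Real.sin φ * z.im) ^ 2 := by ring
  rw [e, ← add_div]
  congr 1
  ring

theorem rot_im (φ : ℝ) (z : ℍ) : (rot φ z).im =
    z.im / ((Real.cos φ - Real.sin φ * z.re) ^ 2 + (Real.sin φ * z.im) ^ 2) := by
  have h := rot_den_pos φ z
  rw [← coe_im, coe_rot, Complex.div_im, Complex.normSq_apply]
  simp only [Complex.add_re, Complex.mul_re, Complex.ofReal_re, Complex.ofReal_im, coe_re, coe_im,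
    Complex.add_im, Complex.mul_im, zero_mul, sub_zero, add_zero]
  have e : (-Real.sin φ * z.re + Real.cos φ) * (-Real.sin φ * z.re + Real.cos φ) +
      -Real.sin φ * z.im * (-Real.sin φ * z.im) =
      (Real.cos φ - Real.sin φ * z.re) ^ 2 + (Real.sin φ * z.im) ^ 2 := by ring
  rw [e, ← sub_div]
  congr 1
  linear_combination z.im * Real.cos_sq_add_sin_sq φ

theorem rot_I (φ : ℝ) : rot φ I = I := by
  apply UpperHalfPlane.ext_re_im
  · rw [rot_re]
    simp [mul_comm]
  · rw [rot_im]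
    simp [Real.cos_sq_add_sin_sq]

/-- The direction of `z` seen from `I`, with length twice the hyperbolic sine of the distance. -/
noncomputable def zeta (z : ℍ) : ℂ := ⟨(z.re ^ 2 + z.im ^ 2 - 1) / z.im, -2 * z.re / z.im⟩

theorem zeta_re (z : ℍ) : (zeta z).re = (z.re ^ 2 + z.im ^ 2 - 1) / z.im := rfl

theorem zeta_im (z : ℍ) : (zeta z).im = -2 * z.re / z.im := rfl

theorem zeta_rot (φ : ℝ) (z : ℍ) :
    zeta (rot φ z) = Complex.exp (((2 * φ : ℝ) : ℂ) * Complex.I) * zeta z := by
  have hD := rot_den_pos φ z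
  have hy := z.im_pos
  have h1 := Real.cos_sq_add_sin_sq φ
  apply Complex.ext
  · rw [Complex.mul_re, Complex.exp_ofReal_mul_I_re, Complex.exp_ofReal_mul_I_im, zeta_re,
      zeta_re, zeta_im, rot_re, rot_im, Real.cos_two_mul, Real.sin_two_mul]
    set c := Real.cos φ
    set s := Real.sin φ
    set x := z.re
    set y := z.im
    have key : ((c * x + s) * (c - s * x) - c * s * y ^ 2) ^ 2 + y ^ 2 =
        ((c * x + s) ^ 2 + c ^ 2 * y ^ 2) * ((c - s * x) ^ 2 + (s * y) ^ 2) := by
      linear_combination (-(y ^ 2) * (c ^ 2 + s ^ 2 + 1)) * h1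
    set D := (c - s * x) ^ 2 + (s * y) ^ 2 with hDdef
    have e : (((c * x + s) * (c - s * x) - c * s * y ^ 2) / D) ^ 2 + (y / D) ^ 2 =
        ((c * x + s) ^ 2 + c ^ 2 * y ^ 2) / D := by
      rw [div_pow, div_pow, ← add_div, key]
      field_simp
    rw [e]
    field_simp
    rw [hDdef]
    linear_combination (-(x ^ 2 + y ^ 2 - 1)) * h1
  · rw [Complex.mul_im, Complex.exp_ofReal_mul_I_re, Complex.exp_ofReal_mul_I_im, zeta_im,
      zeta_re, zeta_im, rot_re, rot_im, Real.cos_two_mul, Real.sin_two_mul]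
    have gen : ∀ N D y : ℝ, 0 < D → 0 < y → -2 * (N / D) / (y / D) = -2 * N / y := by
      intro N D y h h'
      field_simp
    rw [gen _ _ _ hD hy]
    field_simp
    linear_combination z.re * h1

/-- The dilation `z ↦ l z`. -/
noncomputable def dil (l : ℝ) (hl : 0 < l) : ℍ ≃ᵢ ℍ where
  toEquiv := MulAction.toPerm (⟨l, hl⟩ : {x : ℝ // 0 < x})
  isometry_toFun := isometry_pos_mul _

theorem dil_re (l : ℝ) (hl : 0 < l) (z : ℍ) : (dil l hl z).re = l * z.re :=
  pos_real_re _ _

theorem dil_im (l : ℝ) (hl : 0 < l) (z : ℍ) : (dil l hl z).im = l * z.im :=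
  pos_real_im _ _

theorem dist_dil {l : ℝ} (hl : 0 < l) (h1 : 1 ≤ l) : dist I (dil l hl I) = Real.log l := by
  rw [dist_of_re_eq (by rw [dil_re]; simp), dil_im]
  simp [Real.dist_eq, abs_of_nonneg (Real.log_nonneg h1)]

/-- Two measures that give every ball the same mass, depending only on the radius, agree. -/
theorem le_of_ball (μ ν : Measure ℍ) [SFinite μ] [SFinite ν] (h : ℝ → ℝ≥0∞)
    (hμ : ∀ x r, μ (ball x r) = h r) (hν : ∀ x r, ν (ball x r) = h r)
    (h0 : ∀ r, 0 < r → h r ≠ 0) (ht : ∀ r, h r ≠ ∞) {U : Set ℍ} (hU : IsOpen U) : μ U ≤ ν U := by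
  have key : ∀ r, 0 < r → μ {x | ball x r ⊆ U} ≤ ν U := by
    intro r hr
    have hcl : IsClosed {x : ℍ | ball x r ⊆ U} := by
      have : {x : ℍ | ball x r ⊆ U} = ⋂ y ∈ Uᶜ, (ball y r)ᶜ := by
        ext x
        simp only [mem_ofPred_eq, mem_iInter, mem_compl_iff, mem_ball]
        constructor
        · intro hx y hy hd
          exact hy (hx (by rwa [mem_ball, dist_comm]))
        · intro hx y hy
          by_contra hn
          exact hx y hn (by rwa [mem_ball, dist_comm] at hy)
      rw [this]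
      exact isClosed_biInter fun y _ => isOpen_ball.isClosed_compl
    have hm : MeasurableSet {p : ℍ × ℍ | dist p.1 p.2 < r ∧ p.2 ∈ U} :=
      ((isOpen_lt continuous_dist continuous_const).inter
        (hU.preimage continuous_snd)).measurableSet
    have e1 := Measure.prod_apply (μ := μ) (ν := ν) hm
    have e2 := Measure.prod_apply_symm (μ := μ) (ν := ν) hm
    have a1 : h r * μ {x | ball x r ⊆ U} ≤
        ∫⁻ x, ν (Prod.mk x ⁻¹' {p : ℍ × ℍ | dist p.1 p.2 < r ∧ p.2 ∈ U}) ∂μ := by
      rw [← lintegral_indicator_const hcl.measurableSet]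
      refine lintegral_mono fun x => ?_
      by_cases hx : x ∈ {x : ℍ | ball x r ⊆ U}
      · rw [indicator_of_mem hx, ← hν x r]
        refine measure_mono fun y hy => ⟨?_, hx hy⟩
        rwa [mem_ball, dist_comm] at hy
      · rw [indicator_of_notMem hx]
        exact zero_le
    have a2 : ∫⁻ y, μ ((fun x => (x, y)) ⁻¹' {p : ℍ × ℍ | dist p.1 p.2 < r ∧ p.2 ∈ U}) ∂ν ≤
        h r * ν U := by
      rw [← lintegral_indicator_const hU.measurableSet]
      refine lintegral_mono fun y => ?_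
      by_cases hy : y ∈ U
      · rw [indicator_of_mem hy, ← hμ y r]
        exact measure_mono fun x hx => hx.1
      · rw [indicator_of_notMem hy]
        have : (fun x => (x, y)) ⁻¹' {p : ℍ × ℍ | dist p.1 p.2 < r ∧ p.2 ∈ U} = ∅ :=
          eq_empty_of_forall_notMem fun x hx => hy hx.2
        rw [this, measure_empty]
    have a3 : h r * μ {x | ball x r ⊆ U} ≤ h r * ν U := a1.trans ((e1.symm.trans e2).le.trans a2)
    exact (ENNReal.mul_le_mul_iff_right (h0 r hr) (ht r)).1 a3
  have hcov : U = ⋃ n : ℕ, {x | ball x (1 / ((n : ℝ) + 1)) ⊆ U} := by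
    ext x
    simp only [mem_iUnion, mem_ofPred_eq]
    constructor
    · intro hx
      obtain ⟨e, he, hb⟩ := isOpen_iff.1 hU x hx
      obtain ⟨n, hn⟩ := exists_nat_one_div_lt he
      exact ⟨n, (ball_subset_ball hn.le).trans hb⟩
    · rintro ⟨n, hn⟩
      exact hn (mem_ball_self (by positivity))
  have hmono : Monotone fun n : ℕ => {x : ℍ | ball x (1 / ((n : ℝ) + 1)) ⊆ U} := by
    intro a b hab x hx
    refine (ball_subset_ball ?_).trans hx
    exact Nat.one_div_le_one_div hab
  calc μ U = μ (⋃ n : ℕ, {x | ball x (1 / ((n : ℝ) + 1)) ⊆ U}) := by rw [← hcov]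
    _ = ⨆ n : ℕ, μ {x | ball x (1 / ((n : ℝ) + 1)) ⊆ U} := hmono.measure_iUnion
    _ ≤ ν U := iSup_le fun n => key _ (by positivity)

theorem volume_ball (x : ℍ) (r : ℝ) : volume (ball x r) = volume (ball I r) := by
  have h := measure_preimage_smul (volume : Measure ℍ)
    (Matrix.SpecialLinearGroup.mapGL ℝ x.toSL2R) (ball x r)
  rw [← h]
  congr 1
  have := (mv x).preimage_ball x r
  rw [mv_symm] at this
  exact this

theorem volume_open_pos {U : Set ℍ} (hU : IsOpen U) (hne : U.Nonempty) : volume U ≠ 0 := by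
  rw [volume_eq_lintegral]
  intro h
  have hop : IsOpen (UpperHalfPlane.coe '' U) := isOpenEmbedding_coe.isOpenMap U hU
  rw [setLIntegral_eq_zero_iff hop.measurableSet (by fun_prop)] at h
  have hpos := hop.measure_pos volume (hne.image _)
  refine hpos.ne' (measure_mono_null ?_ h)
  rintro _ ⟨z, hz, rfl⟩ hh
  have := hh ⟨z, hz, rfl⟩
  simp [z.im_ne_zero] at this

/-- Every isometry preserves the hyperbolic area. -/
theorem measurePreserving (g : ℍ ≃ᵢ ℍ) : MeasurePreserving g volume volume := by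
  have hg : Measurable g := g.continuous.measurable
  refine ⟨hg, ?_⟩
  have hb : ∀ x r, (Measure.map g volume) (ball x r) = volume (ball I r) := by
    intro x r
    rw [Measure.map_apply hg measurableSet_ball, g.preimage_ball, volume_ball]
  have h0 : ∀ r, 0 < r → volume (ball I r) ≠ 0 := fun r hr =>
    volume_open_pos isOpen_ball ⟨I, mem_ball_self hr⟩
  have ht : ∀ r, volume (ball I r) ≠ ∞ := fun r => measure_ball_lt_top.ne
  have : IsLocallyFiniteMeasure (Measure.map g volume) :=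
    ⟨fun x => ⟨ball x 1, ball_mem_nhds x one_pos, by rw [hb]; exact (ht 1).lt_top⟩⟩
  refine Measure.OuterRegular.ext_isOpen fun U hU => le_antisymm ?_ ?_
  · exact le_of_ball _ _ _ hb volume_ball h0 ht hU
  · exact le_of_ball _ _ _ volume_ball hb h0 ht hU

theorem volume_preimage (g : ℍ ≃ᵢ ℍ) (s : Set ℍ) : volume (g ⁻¹' s) = volume s :=
  (measurePreserving g).measure_preimage_emb g.toHomeomorph.measurableEmbedding s

theorem image_eq (g : ℍ ≃ᵢ ℍ) (s : Set ℍ) : g '' s = g.symm ⁻¹' s :=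
  g.toEquiv.image_eq_preimage_symm s

theorem volume_image (g : ℍ ≃ᵢ ℍ) (s : Set ℍ) : volume (g '' s) = volume s := by
  rw [image_eq, volume_preimage]

theorem null_image (g : ℍ ≃ᵢ ℍ) {s : Set ℍ} (h : NullMeasurableSet s volume) :
    NullMeasurableSet (g '' s) volume := by
  rw [image_eq]
  exact h.preimage (measurePreserving g.symm).quasiMeasurePreserving

theorem meas_image (g : ℍ ≃ᵢ ℍ) {s : Set ℍ} (h : MeasurableSet s) : MeasurableSet (g '' s) := by
  rw [image_eq]
  exact g.symm.continuous.measurable h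

end Pool.Agent.Lib.MP_9ed947_gt.Sharp
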