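import Pool.Agent.Lib.MP_9ed947_gt.SharpDefs
import Pool.Agent.Lib.MP_9ed947_gt.SharpGeo

/-! The whole plane has a Borel paradoxical decomposition with displacement below any
`c > log 2`. -/

namespace Pool.Agent.Lib.MP_9ed947_gt.Sharp

open UpperHalfPlane MeasureTheory Metric Set

theorem reindex {ι : Type} [Finite ι] (A : ι → Set ℍ) :
    ∃ (m : ℕ) (a : Fin m → ι), Function.Injective a ∧ (∀ k, (A (a k)).Nonempty) ∧
      ∀ i, (A i).Nonempty → ∃ k, a k = i := by
  obtain ⟨m, ⟨e⟩⟩ := Finite.exists_equiv_fin {i // (A i).Nonempty}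
  refine ⟨m, fun k => (e.symm k).1, Subtype.val_injective.comp e.symm.injective,
    fun k => (e.symm k).2, fun i hi => ⟨e ⟨i, hi⟩, by simp⟩⟩

theorem part_of {τ τ' : Type} {X : Set ℍ} {F : τ → Set ℍ} {a : τ' → τ}
    (ha : Function.Injective a) (hn : ∀ k, (F (a k)).Nonempty)
    (hs : ∀ i, (F i).Nonempty → ∃ k, a k = i) (hd : ∀ i j, i ≠ j → Disjoint (F i) (F j))
    (hu : ⋃ i, F i = X) : IsPartition X (fun k => F (a k)) := by
  refine ⟨hn, fun i j hij => hd _ _ (ha.ne hij), ?_⟩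
  rw [← hu]
  ext z
  simp only [mem_iUnion]
  constructor
  · rintro ⟨k, hk⟩
    exact ⟨_, hk⟩
  · rintro ⟨i, hi⟩
    obtain ⟨k, rfl⟩ := hs i ⟨z, hi⟩
    exact ⟨k, hi⟩

/-- Drop the empty pieces. -/
theorem pack {ι κ : Type} [Finite ι] [Finite κ] {M : Set ℍ → Prop} {U : Set (ℍ ≃ᵢ ℍ)}
    {X : Set ℍ} (A : ι → Set ℍ) (B : κ → Set ℍ) (ρ : ι → ℍ ≃ᵢ ℍ) (σ : κ → ℍ ≃ᵢ ℍ)
    (hX : X.Nonempty) (hA : ∀ i, M (A i)) (hB : ∀ j, M (B j)) (hρ : ∀ i, ρ i ∈ U)
    (hσ : ∀ j, σ j ∈ U) (dA : ∀ i j, i ≠ j → Disjoint (A i) (A j)) (uA : ⋃ i, A i = X)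
    (dB : ∀ i j, i ≠ j → Disjoint (B i) (B j)) (uB : ⋃ j, B j = X)
    (dS : ∀ s t, s ≠ t → Disjoint (Sum.elim (fun i => ρ i '' A i) (fun j => σ j '' B j) s)
      (Sum.elim (fun i => ρ i '' A i) (fun j => σ j '' B j) t))
    (uS : ⋃ s, Sum.elim (fun i => ρ i '' A i) (fun j => σ j '' B j) s = X) : Paradox M U X := by
  obtain ⟨m, a, ia, na, sa⟩ := reindex A
  obtain ⟨n, b, ib, nb, sb⟩ := reindex B
  obtain ⟨z, hz⟩ := hX
  have hm : 1 ≤ m := by
    obtain ⟨i, hi⟩ := mem_iUnion.1 (uA.symm ▸ hz)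
    obtain ⟨k, -⟩ := sa i ⟨z, hi⟩
    exact k.pos
  have hn : 1 ≤ n := by
    obtain ⟨i, hi⟩ := mem_iUnion.1 (uB.symm ▸ hz)
    obtain ⟨k, -⟩ := sb i ⟨z, hi⟩
    exact k.pos
  refine ⟨m, n, fun k => ρ (a k), fun k => σ (b k), fun k => A (a k), fun k => B (b k), hm, hn,
    fun k => hA _, fun k => hB _, fun k => hρ _, fun k => hσ _, part_of ia na sa dA uA,
    part_of ib nb sb dB uB, ?_⟩
  have h := part_of (F := Sum.elim (fun i => ρ i '' A i) (fun j => σ j '' B j))
    (a := Sum.map a b) (ia.sumMap ib) ?_ ?_ dS uS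
  · have e : (Sum.elim (fun k => ρ (a k) '' A (a k)) (fun k => σ (b k) '' B (b k))) =
        fun k => Sum.elim (fun i => ρ i '' A i) (fun j => σ j '' B j) (Sum.map a b k) := by
      funext k
      rcases k with k | k <;> rfl
    rw [e]
    exact h
  · rintro (k | k)
    · exact (na k).image _
    · exact (nb k).image _
  · rintro (i | j) h
    · obtain ⟨k, rfl⟩ := sa i (Nonempty.of_image h)
      exact ⟨Sum.inl k, rfl⟩
    · obtain ⟨k, rfl⟩ := sb j (Nonempty.of_image h)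
      exact ⟨Sum.inr k, rfl⟩

/-- Absorption of the points that are not hit. -/
theorem absorb {ι : Type} [Finite ι] {U : Set (ℍ ≃ᵢ ℍ)} (h1 : IsometryEquiv.refl ℍ ∈ U)
    (S : ι → Set ℍ) (h : ι → Bool → ℍ ≃ᵢ ℍ) (mS : ∀ i, MeasurableSet (S i))
    (dS : ∀ i j, i ≠ j → Disjoint (S i) (S j)) (cov : ∀ z, ∃ j, z ∈ S j)
    (hU : ∀ j e, h j e ∈ U)
    (inj : ∀ j e j' e' z w, z ∈ S j → w ∈ S j' → h j e z = h j' e' w → j = j' ∧ e = e') :
    Paradox MeasurableSet U univ := by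
  let Φ : Set ℍ → Set ℍ := fun Y => ⋃ i, h i false '' (S i ∩ Y)
  let D : Set ℍ := (⋃ i, ⋃ e, h i e '' S i)ᶜ
  let E : Set ℍ := ⋃ n : ℕ, Φ^[n] D
  have mD : MeasurableSet D :=
    (MeasurableSet.iUnion fun i => MeasurableSet.iUnion fun e => meas_image _ (mS i)).compl
  have mE : MeasurableSet E := by
    refine MeasurableSet.iUnion fun n => ?_
    induction n with
    | zero => exact mD
    | succ n ih =>
      rw [Function.iterate_succ_apply']
      exact MeasurableSet.iUnion fun i => meas_image _ ((mS i).inter ih)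
  have toE : ∀ i w, w ∈ S i → w ∈ E → h i false w ∈ E := by
    intro i w hw hE
    obtain ⟨n, hn⟩ := mem_iUnion.1 hE
    refine mem_iUnion.2 ⟨n + 1, ?_⟩
    rw [Function.iterate_succ_apply']
    exact mem_iUnion.2 ⟨i, w, ⟨hw, hn⟩, rfl⟩
  have ofE : ∀ j e w, w ∈ S j → h j e w ∈ E → e = false ∧ w ∈ E := by
    intro j e w hw hE
    obtain ⟨n, hn⟩ := mem_iUnion.1 hE
    cases n with
    | zero =>
      have hn' : h j e w ∉ ⋃ i, ⋃ e, h i e '' S i := hn
      exact (hn' (mem_iUnion.2 ⟨j, mem_iUnion.2 ⟨e, mem_image_of_mem _ hw⟩⟩)).elim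
    | succ n =>
      rw [Function.iterate_succ_apply'] at hn
      obtain ⟨i, v, ⟨hv, hv'⟩, he⟩ := mem_iUnion.1 hn
      obtain ⟨rfl, rfl⟩ := inj _ _ _ _ _ _ hv hw he
      obtain rfl := (h i false).injective he
      exact ⟨rfl, mem_iUnion.2 ⟨n, hv'⟩⟩
  refine pack (ι := Option ι) (κ := ι) (fun o => o.elim E fun i => S i \ E) S
    (fun o => o.elim (IsometryEquiv.refl ℍ) fun i => h i false) (fun j => h j true)
    ⟨I, trivial⟩ ?_ mS ?_ (fun j => hU j true) ?_ ?_ dS ?_ ?_ ?_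
  · rintro (_ | i)
    · exact mE
    · exact (mS i).diff mE
  · rintro (_ | i)
    · exact h1
    · exact hU i false
  · rintro (_ | i) (_ | j) hij
    · exact absurd rfl hij
    · exact disjoint_left.2 fun z hz hz' => hz'.2 hz
    · exact disjoint_left.2 fun z hz hz' => hz.2 hz'
    · exact (dS i j fun e => hij (by rw [e])).mono sdiff_subset sdiff_subset
  · refine eq_univ_of_forall fun z => mem_iUnion.2 ?_
    by_cases hz : z ∈ E
    · exact ⟨none, hz⟩
    · obtain ⟨j, hj⟩ := cov z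
      exact ⟨some j, hj, hz⟩
  · exact eq_univ_of_forall fun z => mem_iUnion.2 (cov z)
  · have k1 : ∀ i, Disjoint (IsometryEquiv.refl ℍ '' E) (h i false '' (S i \ E)) := by
      intro i
      refine disjoint_left.2 ?_
      rintro _ ⟨z, hz, rfl⟩ ⟨w, hw, he⟩
      have hz' : h i false w ∈ E := by rw [he]; exact hz
      exact hw.2 (ofE i false w hw.1 hz').2
    have k2 : ∀ j, Disjoint (IsometryEquiv.refl ℍ '' E) (h j true '' S j) := by
      intro j
      refine disjoint_left.2 ?_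
      rintro _ ⟨z, hz, rfl⟩ ⟨w, hw, he⟩
      have hz' : h j true w ∈ E := by rw [he]; exact hz
      exact absurd (ofE j true w hw hz').1 (by simp)
    have k3 : ∀ i j, Disjoint (h i false '' (S i \ E)) (h j true '' S j) := by
      intro i j
      refine disjoint_left.2 ?_
      rintro _ ⟨z, hz, rfl⟩ ⟨w, hw, he⟩
      exact absurd (inj _ _ _ _ _ _ hw hz.1 he).2 (by simp)
    rintro ((_ | i) | i) ((_ | j) | j) hij
    · exact absurd rfl hij
    · exact k1 j
    · exact k2 j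
    · exact (k1 i).symm
    · refine disjoint_left.2 ?_
      rintro _ ⟨z, hz, rfl⟩ ⟨w, hw, he⟩
      exact hij (by rw [(inj _ _ _ _ _ _ hw.1 hz.1 he).1])
    · exact k3 i j
    · exact (k2 i).symm
    · exact (k3 j i).symm
    · refine disjoint_left.2 ?_
      rintro _ ⟨z, hz, rfl⟩ ⟨w, hw, he⟩
      exact hij (by rw [(inj _ _ _ _ _ _ hw hz he).1])
  · refine eq_univ_of_forall fun z => mem_iUnion.2 ?_
    by_cases hz : z ∈ E
    · exact ⟨Sum.inl none, z, hz, rfl⟩
    · have hD : z ∉ D := fun hD => hz (mem_iUnion.2 ⟨0, hD⟩)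
      have hD' : z ∈ ⋃ i, ⋃ e, h i e '' S i := not_not.1 hD
      obtain ⟨i, hi⟩ := mem_iUnion.1 hD'
      obtain ⟨e, w, hw, rfl⟩ := mem_iUnion.1 hi
      cases e with
      | false => exact ⟨Sum.inl (some i), w, ⟨hw, fun hE => hz (toE i w hw hE)⟩, rfl⟩
      | true => exact ⟨Sum.inr i, w, hw, rfl⟩

/-- The same for a cover. -/
theorem absorb' {N : ℕ} {U : Set (ℍ ≃ᵢ ℍ)} (h1 : IsometryEquiv.refl ℍ ∈ U)
    (S : Fin N → Set ℍ) (h : Fin N → Bool → ℍ ≃ᵢ ℍ) (mS : ∀ i, MeasurableSet (S i))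
    (cov : ∀ z, ∃ j, z ∈ S j) (hU : ∀ j e, h j e ∈ U)
    (inj : ∀ j e j' e' z w, z ∈ S j → w ∈ S j' → h j e z = h j' e' w → j = j' ∧ e = e') :
    Paradox MeasurableSet U univ := by
  refine absorb h1 (fun j => S j \ ⋃ i, ⋃ (_ : i < j), S i) h
    (fun j => (mS j).diff (MeasurableSet.iUnion fun i => MeasurableSet.iUnion fun _ => mS i))
    ?_ ?_ hU fun j e j' e' z w hz hw => inj j e j' e' z w hz.1 hw.1
  · intro i j hij
    refine disjoint_left.2 fun z hi hj => ?_
    rcases lt_or_gt_of_ne hij with h' | h'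
    · exact hj.2 (mem_iUnion₂.2 ⟨i, h', hi.1⟩)
    · exact hi.2 (mem_iUnion₂.2 ⟨j, h', hj.1⟩)
  · intro z
    obtain ⟨j, hj, hmin⟩ := wellFounded_lt.has_min {j | z ∈ S j} (cov z)
    refine ⟨j, hj, fun hh => ?_⟩
    obtain ⟨i, hi, hz⟩ := mem_iUnion₂.1 hh
    exact hmin i hz hi

theorem tan_mono {a b : ℝ} (ha : -(Real.pi / 2) < a) (hab : a ≤ b) (hb : b < Real.pi / 2) :
    Real.tan a ≤ Real.tan b :=
  Real.strictMonoOn_tan.monotoneOn ⟨ha, by linarith⟩ ⟨by linarith, hb⟩ hab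

theorem sector_of {β θ r : ℝ} (h : |β| ≤ θ) (hθ : θ < Real.pi / 2) (hr : 0 ≤ r) :
    |r * Real.sin β| ≤ Real.tan θ * (r * Real.cos β) := by
  obtain ⟨h1, h2⟩ := abs_le.1 h
  have hc : 0 < Real.cos β := Real.cos_pos_of_mem_Ioo ⟨by linarith, by linarith⟩
  have a1 := tan_mono (a := β) (by linarith) h2 hθ
  have a2 := tan_mono (a := -β) (b := θ) (by linarith) (by linarith) hθ
  rw [Real.tan_neg] at a2
  have e : Real.sin β = Real.tan β * Real.cos β := (Real.tan_mul_cos hc.ne').symm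
  have hrc : 0 ≤ r * Real.cos β := by positivity
  rw [e, abs_le]
  constructor <;> nlinarith

theorem arg_lt {η : ℂ} {t : ℝ} (h0 : 0 < t) (ht : t < Real.pi / 2)
    (h : |η.im| < Real.tan t * η.re) : η ≠ 0 ∧ |η.arg| < t := by
  have hp : 0 < Real.tan t := Real.tan_pos_of_pos_of_lt_pi_div_two h0 ht
  have hre : 0 < η.re := by
    by_contra hn
    have := abs_nonneg η.im
    nlinarith
  refine ⟨fun e => by simp [e] at hre, ?_⟩
  obtain ⟨b1, b2⟩ := abs_lt.1 (Complex.abs_arg_lt_pi_div_two_iff.2 (Or.inl hre))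
  obtain ⟨c1, c2⟩ := abs_lt.1 h
  have e := Complex.tan_arg η
  rw [abs_lt]
  constructor
  · by_contra hn
    have a := tan_mono (a := η.arg) (b := -t) b1 (by linarith) (by linarith)
    rw [Real.tan_neg, e, div_le_iff₀ hre] at a
    linarith
  · by_contra hn
    have a := tan_mono (a := t) (b := η.arg) (by linarith) (by linarith) b2
    rw [e, le_div_iff₀ hre] at a
    linarith

theorem slot_inj {N m m' : ℕ} {θ : ℝ} (hθ : 0 < θ) (hN : N * θ = Real.pi) (hm : m < 2 * N)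
    (hm' : m' < 2 * N) {η η' : ℂ} (h0 : η ≠ 0) (h1 : |η.arg| < θ / 2) (h2 : |η'.arg| < θ / 2)
    (he : Complex.exp (((m * θ : ℝ) : ℂ) * Complex.I) * η =
      Complex.exp (((m' * θ : ℝ) : ℂ) * Complex.I) * η') : m = m' := by
  have hn : ‖η‖ = ‖η'‖ := by
    have := congrArg norm he
    simpa only [norm_mul, Complex.norm_exp_ofReal_mul_I, one_mul] using this
  have hn0 : (‖η‖ : ℂ) ≠ 0 := by simpa using h0
  have e1 := Complex.norm_mul_exp_arg_mul_I η
  have e2 := Complex.norm_mul_exp_arg_mul_I η'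
  rw [← hn] at e2
  have e3 : Complex.exp (((m * θ : ℝ) : ℂ) * Complex.I + η.arg * Complex.I) =
      Complex.exp (((m' * θ : ℝ) : ℂ) * Complex.I + η'.arg * Complex.I) := by
    rw [Complex.exp_add, Complex.exp_add]
    apply mul_left_cancel₀ hn0
    linear_combination he + Complex.exp (((m * θ : ℝ) : ℂ) * Complex.I) * e1 -
      Complex.exp (((m' * θ : ℝ) : ℂ) * Complex.I) * e2
  obtain ⟨k, hk⟩ := Complex.exp_eq_exp_iff_exists_int.1 e3
  have e4 : m * θ + η.arg = m' * θ + η'.arg + k * (2 * Real.pi) := by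
    have := congrArg Complex.im hk
    simpa using this
  obtain ⟨a1, a2⟩ := abs_lt.1 h1
  obtain ⟨b1, b2⟩ := abs_lt.1 h2
  rw [← hN] at e4
  have c1 : (((m : ℤ) - m' - 2 * N * k : ℤ) : ℝ) < 1 := by
    push_cast
    by_contra hc
    nlinarith
  have c2 : (-1 : ℝ) < (((m : ℤ) - m' - 2 * N * k : ℤ) : ℝ) := by
    push_cast
    by_contra hc
    nlinarith
  have d1 : (m : ℤ) - m' - 2 * N * k < 1 := by exact_mod_cast c1
  have d2 : -1 < (m : ℤ) - m' - 2 * N * k := by exact_mod_cast c2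
  have d3 : (m : ℤ) < 2 * N := by exact_mod_cast hm
  have d4 : (m' : ℤ) < 2 * N := by exact_mod_cast hm'
  have d5 : (0 : ℤ) ≤ m := by positivity
  have d6 : (0 : ℤ) ≤ m' := by positivity
  have d7 : k = 0 := by
    rcases lt_trichotomy k 0 with h | h | h
    · nlinarith
    · exact h
    · nlinarith
  subst d7
  omega

theorem dil_sector {l τ τ' : ℝ} (hl : 0 < l) (h1 : 1 < l) (hτ : 0 < τ) (hτ' : 0 < τ')
    (hle : τ ≤ l * τ') {z : ℍ} (hz : |(zeta z).im| ≤ τ * (zeta z).re) :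
    |(zeta (dil l hl z)).im| < τ' * (zeta (dil l hl z)).re := by
  have hy := z.im_pos
  have e1 : (zeta (dil l hl z)).im = (zeta z).im := by
    rw [zeta_im, zeta_im, dil_re, dil_im]
    field_simp
  have e2 : (zeta (dil l hl z)).re = l * (zeta z).re + (l ^ 2 - 1) / (l * z.im) := by
    rw [zeta_re, zeta_re, dil_re, dil_im]
    field_simp
    ring
  have h2 : 0 < (l ^ 2 - 1) / (l * z.im) := div_pos (by nlinarith) (by positivity)
  have h3 : 0 ≤ (zeta z).re := by
    by_contra hn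
    have := abs_nonneg (zeta z).im
    nlinarith
  rw [e1, e2]
  nlinarith [mul_pos hτ' h2, mul_le_mul_of_nonneg_right hle h3]

theorem cover {N : ℕ} {θ : ℝ} (hθ : 0 < θ) (hθ' : θ < Real.pi / 2) (hN : N * θ = Real.pi)
    (z : ℍ) : ∃ j : Fin N, |(zeta (rot ((Real.pi - (2 * j + 1) * θ) / 2) z)).im| ≤
      Real.tan θ * (zeta (rot ((Real.pi - (2 * j + 1) * θ) / 2) z)).re := by
  have a1 := Complex.neg_pi_lt_arg (zeta z)
  have a2 := Complex.arg_le_pi (zeta z)
  set α := (zeta z).arg with hα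
  have hpos : 0 < (α + Real.pi) / (2 * θ) := div_pos (by linarith) (by positivity)
  obtain ⟨j, hj⟩ : ∃ j : ℕ, ⌈(α + Real.pi) / (2 * θ)⌉₊ = j + 1 :=
    Nat.exists_eq_succ_of_ne_zero (Nat.ceil_pos.2 hpos).ne'
  have b1 := Nat.le_ceil ((α + Real.pi) / (2 * θ))
  have b2 := Nat.ceil_lt_add_one hpos.le
  rw [hj] at b1 b2
  push_cast at b1 b2
  rw [div_le_iff₀ (by positivity)] at b1
  have b3 : (j : ℝ) * (2 * θ) < α + Real.pi := by
    rw [← lt_div_iff₀ (by positivity)]
    linarith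
  have hjN : j < N := by
    have : (j : ℝ) < N := by
      by_contra hn
      nlinarith
    exact_mod_cast this
  refine ⟨⟨j, hjN⟩, ?_⟩
  have e : zeta (rot ((Real.pi - (2 * j + 1) * θ) / 2) z) =
      (‖zeta z‖ : ℂ) * Complex.exp (((α + Real.pi - (2 * j + 1) * θ : ℝ) : ℂ) * Complex.I) := by
    rw [zeta_rot]
    have e0 : ((α + Real.pi - (2 * j + 1) * θ : ℝ) : ℂ) * Complex.I =
        ((2 * ((Real.pi - (2 * j + 1) * θ) / 2) : ℝ) : ℂ) * Complex.I + α * Complex.I := by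
      push_cast
      ring
    rw [e0, Complex.exp_add]
    linear_combination (-Complex.exp (((2 * ((Real.pi - (2 * j + 1) * θ) / 2) : ℝ) : ℂ) *
      Complex.I)) * Complex.norm_mul_exp_arg_mul_I (zeta z)
  simp only
  rw [e, Complex.re_ofReal_mul, Complex.im_ofReal_mul, Complex.exp_ofReal_mul_I_re,
    Complex.exp_ofReal_mul_I_im]
  exact sector_of (abs_le.2 ⟨by linarith, by linarith⟩) hθ' (norm_nonneg _)

theorem exists_angle {l : ℝ} (hl : 2 < l) : ∃ (N : ℕ) (θ : ℝ), 0 < θ ∧ θ < Real.pi / 2 ∧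
    N * θ = Real.pi ∧ Real.tan θ ≤ l * Real.tan (θ / 2) := by
  have hpi := Real.pi_pos
  have hc : ContinuousAt (fun x => l * (1 - Real.tan x ^ 2)) 0 :=
    continuousAt_const.mul (continuousAt_const.sub
      ((Real.continuousAt_tan.2 (by simp)).pow 2))
  have hlim : Filter.Tendsto (fun N : ℕ => Real.pi / 2 / (N : ℝ)) Filter.atTop (nhds 0) :=
    tendsto_const_div_atTop_nhds_zero_nat _
  have hev := (hc.tendsto.comp hlim).eventually (lt_mem_nhds (a := 2) (by simpa using hl))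
  obtain ⟨N, hN, h3⟩ := (hev.and (Filter.eventually_ge_atTop 3)).exists
  have hN3 : (3 : ℝ) ≤ N := by exact_mod_cast h3
  have hlt : Real.pi / N < Real.pi / 2 := div_lt_div_of_pos_left hpi two_pos (by linarith)
  have hp : 0 < Real.pi / N := by positivity
  refine ⟨N, Real.pi / N, hp, hlt, by field_simp, ?_⟩
  have e : Real.pi / 2 / (N : ℝ) = Real.pi / N / 2 := by ring
  simp only [Function.comp] at hN
  rw [e] at hN
  have ht : 0 < Real.tan (Real.pi / N / 2) :=
    Real.tan_pos_of_pos_of_lt_pi_div_two (by positivity) (by linarith)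
  have e2 := Real.tan_two_mul (x := Real.pi / N / 2)
  have e3 : 2 * (Real.pi / N / 2) = Real.pi / N := by ring
  rw [e3] at e2
  have h1 : 0 < 1 - Real.tan (Real.pi / N / 2) ^ 2 := by
    by_contra hn
    nlinarith
  rw [e2, div_le_iff₀ h1]
  nlinarith

theorem plane {c : ℝ} (hc : Real.log 2 < c) (P : ℍ) :
    Paradox MeasurableSet {g | dist P (g P) < c} univ := by
  have hl2 : 0 < Real.log 2 := Real.log_pos one_lt_two
  obtain ⟨l, hl, hlc⟩ : ∃ l : ℝ, 2 < l ∧ Real.log l < c := by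
    refine ⟨Real.exp ((Real.log 2 + c) / 2), ?_, by rw [Real.log_exp]; linarith⟩
    have := Real.exp_lt_exp.2 (show Real.log 2 < (Real.log 2 + c) / 2 by linarith)
    rwa [Real.exp_log two_pos] at this
  have hl0 : 0 < l := by linarith
  obtain ⟨N, θ, hθ, hθ', hN, htan⟩ := exists_angle hl
  let a : Fin N → ℍ ≃ᵢ ℍ := fun j => rot ((Real.pi - (2 * j + 1) * θ) / 2)
  let slot : Fin N → Bool → ℕ := fun j e => 2 * j + e.toNat
  have hslot : ∀ j e, slot j e < 2 * N := by
    intro j e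
    have := j.2
    have := Bool.toNat_le e
    simp only [slot]
    omega
  refine absorb' (N := N) ((dist_self P).trans_lt (hl2.trans hc))
    (fun j => {z | |(zeta (a j ((mv P).symm z))).im| ≤
      Real.tan θ * (zeta (a j ((mv P).symm z))).re})
    (fun j e => (mv P).symm.trans ((a j).trans ((dil l hl0).trans
      ((rot (slot j e * θ / 2)).trans (mv P))))) ?_ ?_ ?_ ?_
  · intro j
    have m0 : MeasurableSet {w : ℍ | |(zeta w).im| ≤ Real.tan θ * (zeta w).re} := by
      have r := continuous_re.measurable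
      have i := continuous_im.measurable
      simp only [zeta_re, zeta_im]
      exact measurableSet_le (by fun_prop) (by fun_prop)
    exact ((a j).continuous.comp (mv P).symm.continuous).measurable m0
  · intro z
    exact cover hθ hθ' hN _
  · intro j e
    simp only [mem_ofPred_eq, IsometryEquiv.trans_apply, a]
    rw [mv_symm, rot_I]
    have e1 : dist P (mv P (rot (slot j e * θ / 2) (dil l hl0 I))) =
        dist (mv P (rot (slot j e * θ / 2) I)) (mv P (rot (slot j e * θ / 2) (dil l hl0 I))) := by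
      rw [rot_I, mv_I]
    rw [e1, IsometryEquiv.dist_eq, IsometryEquiv.dist_eq, dist_dil hl0 (by linarith)]
    exact hlc
  · intro j e j' e' z w hz hw he
    simp only [IsometryEquiv.trans_apply] at he
    have he' := congrArg zeta ((mv P).injective he)
    rw [zeta_rot, zeta_rot] at he'
    have t1 : 0 < Real.tan θ := Real.tan_pos_of_pos_of_lt_pi_div_two hθ hθ'
    have t2 : 0 < Real.tan (θ / 2) :=
      Real.tan_pos_of_pos_of_lt_pi_div_two (by positivity) (by linarith)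
    have s1 := arg_lt (by positivity) (by linarith)
      (dil_sector hl0 (by linarith) t1 t2 htan hz)
    have s2 := arg_lt (by positivity) (by linarith)
      (dil_sector hl0 (by linarith) t1 t2 htan hw)
    have e1 : ∀ m : ℕ, 2 * (m * θ / 2) = m * θ := fun m => by ring
    rw [e1, e1] at he'
    have k := slot_inj hθ hN (hslot j e) (hslot j' e') s1.1 s1.2 s2.2 he'
    simp only [slot] at k
    have b1 := Bool.toNat_le e
    have b2 := Bool.toNat_le e'
    refine ⟨Fin.ext (by omega), ?_⟩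
    have : e.toNat = e'.toNat := by omega
    cases e <;> cases e' <;> simp_all

end Pool.Agent.Lib.MP_9ed947_gt.Sharp
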