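import Mathlib

namespace Pool.Agent.Lib.MP_9ed947_gt

open UpperHalfPlane MeasureTheory

/-- The isometry `z ↦ z / 2`. -/
noncomputable def halve : UpperHalfPlane ≃ᵢ UpperHalfPlane where
  toEquiv := MulAction.toPerm (⟨1 / 2, by norm_num⟩ : {x : ℝ // 0 < x})
  isometry_toFun := isometry_pos_mul _

/-- The isometry `z ↦ z + 1 / 2`. -/
noncomputable def shift : UpperHalfPlane ≃ᵢ UpperHalfPlane where
  toEquiv := AddAction.toPerm (1 / 2 : ℝ)
  isometry_toFun := isometry_real_vadd _

theorem halve_re (z : UpperHalfPlane) : (halve z).re = z.re / 2 := by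
  change ((⟨1 / 2, by norm_num⟩ : {x : ℝ // 0 < x}) • z).re = _
  rw [pos_real_re]; ring

theorem halve_im (z : UpperHalfPlane) : (halve z).im = z.im / 2 := by
  change ((⟨1 / 2, by norm_num⟩ : {x : ℝ // 0 < x}) • z).im = _
  rw [pos_real_im]; ring

theorem shift_re (z : UpperHalfPlane) : (shift z).re = 1 / 2 + z.re := vadd_re _ _

theorem shift_im (z : UpperHalfPlane) : (shift z).im = z.im := vadd_im _ _

/-- The strip `a ≤ Re z < b`. -/
def strip (a b : ℝ) : Set UpperHalfPlane := {z | a ≤ z.re ∧ z.re < b}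

theorem strip_measurable (a b : ℝ) : MeasurableSet (strip a b) :=
  (measurableSet_le measurable_const continuous_re.measurable).inter
    (measurableSet_lt continuous_re.measurable measurable_const)

theorem strip_nonempty {a b : ℝ} (h : a < b) : (strip a b).Nonempty :=
  ⟨⟨⟨a, 1⟩, one_pos⟩, le_rfl, h⟩

theorem image_halve : halve '' strip 0 1 = strip 0 (1 / 2) := by
  ext z
  constructor
  · rintro ⟨w, ⟨h1, h2⟩, rfl⟩
    constructor <;> rw [halve_re] <;> linarith
  · rintro ⟨h1, h2⟩
    obtain ⟨w, rfl⟩ := halve.surjective z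
    rw [halve_re] at h1 h2
    exact ⟨w, ⟨by linarith, by linarith⟩, rfl⟩

theorem image_shift : (halve.trans shift) '' strip 0 1 = strip (1 / 2) 1 := by
  ext z
  constructor
  · rintro ⟨w, ⟨h1, h2⟩, rfl⟩
    constructor <;> rw [IsometryEquiv.trans_apply, shift_re, halve_re] <;> linarith
  · rintro ⟨h1, h2⟩
    obtain ⟨w, rfl⟩ := (halve.trans shift).surjective z
    rw [IsometryEquiv.trans_apply, shift_re, halve_re] at h1 h2
    exact ⟨w, ⟨by linarith, by linarith⟩, rfl⟩

theorem volume_strip_pos : 0 < volume (strip 0 1) := by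
  rw [volume_eq_lintegral, pos_iff_ne_zero]
  intro h
  have hmeas : MeasurableSet (UpperHalfPlane.coe '' strip 0 1) :=
    measurableEmbedding_coe.measurableSet_image.mpr (strip_measurable 0 1)
  rw [setLIntegral_eq_zero_iff hmeas (by fun_prop)] at h
  have hU : IsOpen {z : ℂ | 0 < z.re ∧ z.re < 1 ∧ 0 < z.im} :=
    (isOpen_lt continuous_const Complex.continuous_re).inter
      ((isOpen_lt Complex.continuous_re continuous_const).inter
        (isOpen_lt continuous_const Complex.continuous_im))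
  have hpos := hU.measure_pos volume ⟨⟨1 / 2, 1⟩, by norm_num⟩
  refine hpos.ne' (measure_mono_null ?_ h)
  rintro z ⟨h1, h2, h3⟩ hz
  have := hz ⟨⟨z, h3⟩, ⟨h1.le, h2⟩, rfl⟩
  simp [h3.ne'] at this

theorem dist_halve (P : UpperHalfPlane) (h : P.re = 0) : dist P (halve P) = Real.log 2 := by
  rw [dist_of_re_eq (by rw [halve_re, h]; simp), halve_im, Real.log_div P.im_ne_zero two_ne_zero,
    Real.dist_eq, sub_sub_cancel, abs_of_pos (Real.log_pos one_lt_two)]

theorem dist_shift (Q : UpperHalfPlane) : dist Q (shift Q) ≤ 1 / 2 / Q.im := by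
  have h := dist_le_dist_coe_div_sqrt Q (shift Q)
  rw [shift_im, Real.sqrt_mul_self Q.im_pos.le] at h
  refine h.trans (le_of_eq ?_)
  congr 1
  change dist (Q : ℂ) (((1 / 2 : ℝ) +ᵥ Q : UpperHalfPlane) : ℂ) = _
  rw [coe_vadd, dist_comm, Complex.dist_eq, add_sub_cancel_right]
  simp

end Pool.Agent.Lib.MP_9ed947_gt
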